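import Pool.Agent.Work.MP_cbd9ca_lc.Main

open Pool.Agent.Work.MP_cbd9ca_lc

/-- There is a countable transitive model `M` of ZFC such that the forcing relation of every
notion of class forcing for `M` is `M`-amenable. -/
theorem Pool.Agent.Results.MP_cbd9ca_lc.AmenableModel.result :
    ∃ M : ZFSet.{0}, IsCTM M ∧ ∀ Q : ClassForcing M, Amenable Q :=
  exists_model
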